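import Pool.Agent.Helper69.SHT.St

set_option autoImplicit false

namespace Pool.Agent.Helper38.SHT

open Finset Filter Pool.Agent.Helper82.CN Pool.Agent.Helper11.PV Pool.Agent.Helper69.VX
open Pool.Agent.Helper69.UX Pool.Agent.Helper69.SHT

theorem par_mono {p ε C δ δ2 : ℝ} {n T : ℕ} {th : ℝ} {κ : ℕ → ℝ} {lam mu : ℝ} (h : Par p ε C δ n T th κ lam mu)
    (hd : δ ≤ δ2) (hK : 0 ≤ KK T κ) : Par p ε C δ2 n T th κ lam mu where
  eq := h.eq
  zer := h.zer
  sum := h.sum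
  ent := h.ent
  lam1 := h.lam1
  lam2 := h.lam2
  mean := h.mean.trans (mul_le_mul_of_nonneg_right hd hK)
  tail := h.tail
  top := h.top
  nxt := h.nxt

theorem kk_nonneg {p ε C δ : ℝ} {n T : ℕ} {th : ℝ} {κ : ℕ → ℝ} {lam mu : ℝ} (hp : p < 1)
    (h : Par p ε C δ n T th κ lam mu) : 0 ≤ KK T κ := by
  unfold KK
  refine Finset.sum_nonneg (fun u _ => ?_)
  by_cases hu : u = 0 ∨ T < u
  · rw [h.zer u hu]
  · push Not at hu
    rw [h.eq u (Nat.one_le_iff_ne_zero.2 hu.1) hu.2]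
    refine mul_nonneg (Real.exp_pos _).le ?_
    unfold om
    exact div_nonneg (pow_nonneg (by linarith) _) (Nat.cast_nonneg _)

theorem hSLO : StPAR → StTNG → StMUX → StFUP → StFLO → StSLO := by
  intro par tng mux fup flo p ε δ' hp hp1 hε hε1 hδ' hδ1'
  have hplt : p < 1 := by
    have h1 : 0 < 1 / Real.exp 2 := by positivity
    linarith
  obtain ⟨C, hC, hPAR⟩ := par p ε hp hp1 hε hε1
  obtain ⟨dF, hdF, nF, hF⟩ := fup p ε C hp hp1 hε hε1 hC
  obtain ⟨d1, hd1, nM, hM⟩ := mux p ε C δ' hp hp1 hε hε1 hC hδ' hδ1'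
  obtain ⟨nP, hP⟩ := hPAR (min dF d1) (lt_min hdF hd1)
  obtain ⟨nL, hL⟩ := flo p ε C (min dF d1) hp hp1 hε hε1 hC (lt_min hdF hd1)
  refine ⟨max (max nF nM) (max (max nP nL) 3), ?_⟩
  intro n n' T th th' hn hnn hw hw'
  have g1 : nF ≤ n := ((le_max_left _ _).trans (le_max_left _ _)).trans hn
  have g2 : nM ≤ n := ((le_max_right _ _).trans (le_max_left _ _)).trans hn
  have g3 : nP ≤ n := (((le_max_left _ _).trans (le_max_left _ _)).trans (le_max_right _ _)).trans hn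
  have g4 : nL ≤ n := (((le_max_right _ _).trans (le_max_left _ _)).trans (le_max_right _ _)).trans hn
  have g5 : 3 ≤ n := ((le_max_right _ _).trans (le_max_right _ _)).trans hn
  obtain ⟨κ, lam, mu, hpar⟩ := hP n T th g3 hw
  obtain ⟨κ', lam', mu', hpar'⟩ := hP n' T th' (g3.trans hnn) hw'
  have hK := kk_nonneg hplt hpar
  have a1 := hF n T th κ lam mu g1 hw (par_mono hpar (min_le_left _ _) hK)
  have a2 := hL n' T th' κ' lam' mu' (g4.trans hnn) hw' hpar'
  obtain ⟨b1, b2⟩ := hM n T th κ lam mu g2 hw (par_mono hpar (min_le_right _ _) hK)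
  have c1 := tng p ε C (min dF d1) n n' T th th' κ κ' lam mu lam' mu' hp hplt (by omega) hnn hpar hpar'
  have hn3 : (3 : ℝ) ≤ n := by exact_mod_cast g5
  have hn0 : (0 : ℝ) < n := by linarith
  have hnn' : (n : ℝ) ≤ n' := by exact_mod_cast hnn
  have hn0' : (0 : ℝ) < n' := by linarith
  have hlog : 0 < Real.log n := Real.log_pos (by linarith)
  have hx : 0 < mu - Real.log n := by linarith
  have hW : (0 : ℝ) ≤ n' - n := by linarith
  have hD : 0 < (T : ℝ) + th + δ' := by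
    have h1 := hw.2.1
    have h2 : (0 : ℝ) ≤ T := Nat.cast_nonneg _
    linarith
  have hlam : 1 ≤ -lam := by linarith [hpar.lam1]
  have hl0 : 0 < -lam := by linarith
  -- the logarithm
  have e1 : Real.log n' - Real.log n ≤ ((n' : ℝ) - n) / n := by
    have h1 := Real.log_le_sub_one_of_pos (show 0 < (n' : ℝ) / n by positivity)
    rw [Real.log_div hn0'.ne' hn0.ne'] at h1
    have h2 : (n' : ℝ) / n - 1 = ((n' : ℝ) - n) / n := by field_simp
    linarith
  have e2 : ((n' : ℝ) - n) * (Real.log n' - Real.log n) ≤ ((n' : ℝ) - n) ^ 2 / n := by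
    have h1 := mul_le_mul_of_nonneg_left e1 hW
    have h2 : ((n' : ℝ) - n) * (((n' : ℝ) - n) / n) = ((n' : ℝ) - n) ^ 2 / n := by ring
    linarith
  have hp3 : 0 ≤ (n : ℝ) ^ (th + 3 * ε) := Real.rpow_nonneg hn0.le _
  have hsq : 0 ≤ ((n' : ℝ) - n) ^ 2 / n := by positivity
  -- the main inequality, multiplied by -lam
  have f1 : ((n' : ℝ) - n) * (mu - Real.log n) - ((n' : ℝ) - n) ^ 2 / n - (n : ℝ) ^ (th + 3 * ε) ≤
      -lam * (KK T κ' - KK T κ) := by
    have h1 : ((n' : ℝ) - n) * (mu - Real.log n') = ((n' : ℝ) - n) * (mu - Real.log n) -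
        ((n' : ℝ) - n) * (Real.log n' - Real.log n) := by ring
    linarith
  have f2 : ((n' : ℝ) - n) / (T + th + δ') * (-lam) ≤ ((n' : ℝ) - n) * (mu - Real.log n) := by
    have h1 : ((n' : ℝ) - n) / (T + th + δ') * (-lam) ≤
        ((n' : ℝ) - n) / (T + th + δ') * ((mu - Real.log n) * (T + th + δ')) :=
      mul_le_mul_of_nonneg_left b2 (div_nonneg hW hD.le)
    have h2 : ((n' : ℝ) - n) / (T + th + δ') * ((mu - Real.log n) * (T + th + δ')) =
        ((n' : ℝ) - n) * (mu - Real.log n) := by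
      field_simp
    linarith
  have f3 : ((n' : ℝ) - n) ^ 2 / n ≤ ((n' : ℝ) - n) ^ 2 / n * (-lam) := le_mul_of_one_le_right hsq hlam
  have f4 : (n : ℝ) ^ (th + 3 * ε) ≤ (n : ℝ) ^ (th + 3 * ε) * (-lam) := le_mul_of_one_le_right hp3 hlam
  have f5 : (((n' : ℝ) - n) / (T + th + δ') - ((n' : ℝ) - n) ^ 2 / n - (n : ℝ) ^ (th + 3 * ε)) * (-lam) ≤
      (KK T κ' - KK T κ) * (-lam) := by
    have h1 : (((n' : ℝ) - n) / (T + th + δ') - ((n' : ℝ) - n) ^ 2 / n - (n : ℝ) ^ (th + 3 * ε)) * (-lam) =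
        ((n' : ℝ) - n) / (T + th + δ') * (-lam) - ((n' : ℝ) - n) ^ 2 / n * (-lam) -
          (n : ℝ) ^ (th + 3 * ε) * (-lam) := by ring
    rw [h1]
    linarith
  have f6 := le_of_mul_le_mul_right f5 hl0
  have f7 : (n : ℝ) ^ (th + 3 * ε) ≤ (n : ℝ) ^ (th + 5 * ε) :=
    Real.rpow_le_rpow_of_exponent_le (by linarith) (by linarith)
  linarith

end Pool.Agent.Helper38.SHT
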